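import Pool.Agent.H69.G4.Fin
import Pool.Agent.H72.G4.Main

/-!
# Three disjoint feedback arc sets in planar digraphs of directed girth at least four

Moreover the three sets partition the arc set: there are three linear orders of the vertices such
that every arc is backward in exactly one of them. The proof looks at a smallest counterexample in
a triangulated disc; separating triangles and 4-cycles, vertices with few neighbours and the
contraction of a directed path across a quadrilateral are reducible, and a discharging argument
shows that one of these configurations occurs.
-/

set_option autoImplicit false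

namespace Pool.Agent.Results.MP_9f68ee_co.DirectedGirthFour

/-- A rotation system of `G`: a permutation `next` of the darts (oriented edges) which, at every
vertex, permutes the darts leaving that vertex cyclically. -/
structure RotationSystem {V : Type*} (G : SimpleGraph V) where
  /-- the dart following a given one in the rotation at its first vertex -/
  next : Equiv.Perm G.Dart
  /-- `next` keeps the first vertex -/
  fst_next : ∀ d, (next d).fst = d.fst
  /-- the darts leaving a vertex form one cycle of `next` -/
  cyclic : ∀ d d' : G.Dart, d.fst = d'.fst → ∃ n : ℕ, (next ^ n) d = d'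

/-- The permutation of the darts which walks along the faces: reverse the dart, then take the next
dart in the rotation. The facial walks are the cycles of this permutation. -/
def RotationSystem.faceStep {V : Type*} {G : SimpleGraph V} (R : RotationSystem G) :
    Equiv.Perm G.Dart :=
  R.next * Function.Involutive.toPerm SimpleGraph.Dart.symm SimpleGraph.Dart.symm_involutive

/-- The number of faces: the number of facial walks, an isolated vertex having one face. -/
noncomputable def RotationSystem.numFaces {V : Type*} {G : SimpleGraph V}
    (R : RotationSystem G) : ℕ :=
  Nat.card (Quotient (Equiv.Perm.SameCycle.setoid R.faceStep)) +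
    Nat.card {v : V // ∀ w, ¬ G.Adj v w}

/-- The finite graph `G` is planar: it has a rotation system satisfying Euler's formula
`|V| - |E| + |F| = 2` in every connected component, added up over all components (the sum of the
genera is `0`; the inequality `≤` always holds). -/
def IsPlanar {V : Type*} (G : SimpleGraph V) : Prop :=
  ∃ R : RotationSystem G, (Nat.card V : ℤ) - Nat.card G.edgeSet + R.numFaces =
    2 * Nat.card G.ConnectedComponent

/-- The arcs `c 0, ..., c n` of the digraph with arc set `A`, tails `tl` and heads `hd` form a
directed cycle: the head of every arc is the tail of the next one (cyclically) and the tails are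
pairwise distinct. For `n = 0` this is a loop, for `n = 1` a pair of opposite arcs. -/
def IsDirectedCycle {V A : Type*} (tl hd : A → V) (n : ℕ) (c : Fin (n + 1) → A) : Prop :=
  (∀ i, hd (c i) = tl (c (i + 1))) ∧ Function.Injective fun i => tl (c i)

theorem isPlanar_tor {V : Type*} {G : SimpleGraph V} (h : IsPlanar G) :
    Pool.Agent.H29.Tor.IsPlanar G := by
  obtain ⟨R, hR⟩ := h
  refine ⟨⟨R.next, R.fst_next, R.cyclic⟩, ?_⟩
  unfold Pool.Agent.H29.Tor.RotationSystem.GenusLE
  have e : (⟨R.next, R.fst_next, R.cyclic⟩ : Pool.Agent.H29.Tor.RotationSystem G).numFaces =
      R.numFaces := rfl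
  rw [e, hR]
  simp

/-- Let `D` be a finite planar digraph (vertices `V`, arcs `A`, tails `tl`, heads `hd`; parallel
arcs allowed) in which every directed cycle has length at least four. Then there are three linear
orders of `V` (given by the injective functions `p 0`, `p 1`, `p 2`) such that every arc is
backward in exactly one of them. So the three sets `T i` of the arcs which are backward in the
`i`-th order partition the set of arcs, and each of them meets every directed cycle. -/
theorem result (V A : Type) [Fintype V] [Fintype A] (tl hd : A → V)
    (hP : IsPlanar (SimpleGraph.fromRel fun x y => ∃ a, tl a = x ∧ hd a = y))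
    (hg : ∀ (n : ℕ) (c : Fin (n + 1) → A), IsDirectedCycle tl hd n c → 4 ≤ n + 1) :
    ∃ (p : Fin 3 → V → ℕ) (T : Fin 3 → Finset A), (∀ i, Function.Injective (p i)) ∧
      (∀ i a, a ∈ T i ↔ p i (hd a) < p i (tl a)) ∧ (∀ a, ∃! i, a ∈ T i) ∧
      Pairwise (fun i j => Disjoint (T i) (T j)) ∧
      ∀ i, ∀ (n : ℕ) (c : Fin (n + 1) → A), IsDirectedCycle tl hd n c → ∃ j, c j ∈ T i := by
  obtain ⟨p, T, h1, h2, h3, h4, h5⟩ := Pool.Agent.H69.G4.fin_main
    (fun W _ _ T D a b c hM hT => Pool.Agent.H72.G4.no_mcw hM hT) (isPlanar_tor hP)
    (fun n c h k => hg n c ⟨h, k⟩)
  exact ⟨p, T, h1, h2, h3, h4, fun i n c h => h5 i n c h.1 h.2⟩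

end Pool.Agent.Results.MP_9f68ee_co.DirectedGirthFour
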