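import Pool.Agent.H43.OF.Final
import Pool.Agent.H37.OS.MapDual
import Pool.Agent.H9.CH.Chrom

set_option autoImplicit false

namespace Pool.Agent.Results.MP_9f68ee_co.HalfGirth

open Finset

variable {V A F : Type}

/-- `D` has the arcs `a : A` with tails `tl a` and heads `hd a` in `V`; the dual digraph has the
faces `f : F` as vertices and the same arcs, from the face `lf a` on the left of `a` to the face
`rt a` on its right. The two are dual: an integer vector on the arcs is a circulation of `D` iff
it is the vector of differences of a potential of the faces, and the dual is connected. -/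
def Dual [Fintype A] [DecidableEq V] (tl hd : A → V) (lf rt : A → F) : Prop :=
  (∀ x : A → ℤ, (∀ v, (∑ a ∈ univ.filter (fun a => tl a = v), x a) =
      ∑ a ∈ univ.filter (fun a => hd a = v), x a) ↔
    ∃ π : F → ℤ, ∀ a, x a = π (lf a) - π (rt a)) ∧
  ∀ π : F → ℤ, (∀ a, π (lf a) = π (rt a)) → ∀ e f, π e = π f

/-- `c` is a directed cycle with `n + 1` arcs. -/
def DiCycle (tl hd : A → V) (n : ℕ) (c : Fin (n + 1) → A) : Prop :=
  (∀ i, hd (c i) = tl (c (i + 1))) ∧ Function.Injective (fun i => tl (c i))

/-- There are `k` sets of arcs, each meeting every directed cycle, such that every arc `a` is in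
at most `w a` of them (for `w = 1`: they are pairwise disjoint). -/
def Packs [DecidableEq A] (tl hd : A → V) (w : A → ℕ) (k : ℕ) : Prop :=
  ∃ T : Fin k → Finset A, (∀ a, (univ.filter (fun i => a ∈ T i)).card ≤ w a) ∧
    ∀ i n c, DiCycle tl hd n c → ∃ j, c j ∈ T i

/-- There is a directed path from the face `e` to the face `f` in the dual digraph. -/
def Reach (lf rt : A → F) (e f : F) : Prop :=
  Relation.ReflTransGen (fun u v => ∃ a, lf a = u ∧ rt a = v) e f

/-- The length of the boundary of the face `f`, with weights. -/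
def len [DecidableEq F] [Fintype A] (lf rt : A → F) (w : A → ℕ) (f : F) : ℕ :=
  (∑ a ∈ univ.filter (fun a => lf a = f), w a) + ∑ a ∈ univ.filter (fun a => rt a = f), w a

/-- The other dart of the same arc. -/
def opp : Equiv.Perm (A × Bool) := (Equiv.refl A).prodCongr Equiv.boolNot

/-- The cycles of a permutation. -/
def Cyc {B : Type} (σ : Equiv.Perm B) : Type := Quotient (Equiv.Perm.SameCycle.setoid σ)

/-- The cycle of `d`. -/
def cyc {B : Type} (σ : Equiv.Perm B) (d : B) : Cyc σ := Quotient.mk _ d

/-- A connected plane digraph given by a rotation system: every arc `a` has the darts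
`(a, true)` at its tail and `(a, false)` at its head, `σ` turns around the vertices; the vertices
are the cycles of `σ`, the faces the cycles of `σ * opp`; the number of vertices plus the number of
faces is the number of arcs plus 2. -/
def PlaneMap [Fintype A] (σ : Equiv.Perm (A × Bool)) : Prop :=
  (∀ S : Set (A × Bool), S.Nonempty → (∀ d ∈ S, σ d ∈ S ∧ opp d ∈ S) → S = Set.univ) ∧
  Nat.card (Cyc σ) + Nat.card (Cyc (σ * opp)) = Fintype.card A + 2

open Classical in
/-- Feedback arc sets in plane digraphs: half of the directed girth, under four conditions, and a part of it which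
depends on the chromatic number of the graph of the arcs that are incomparable with a face. -/
theorem result (V A F : Type) [Finite V] [DecidableEq V] [Fintype A] [DecidableEq A] [Fintype F]
    [DecidableEq F] (tl hd : A → V) (lf rt : A → F) (hdual : Dual tl hd lf rt)
    (w : A → ℕ) (g b : ℕ)
    (hg : ∀ n c, DiCycle tl hd n c → g ≤ ∑ i, w (c i))
    (hb : ∀ X : Finset F, X.Nonempty → X ≠ univ →
      b ≤ ∑ a ∈ univ.filter (fun a => ¬ (lf a ∈ X ↔ rt a ∈ X)), w a) :
    (∀ r : F, {f | ¬ Reach lf rt f r ∧ ¬ Reach lf rt r f ∧ Odd (len lf rt w f)}.ncard ≤ b + 2 →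
      Packs tl hd w (g / 2)) ∧
    (∀ r : F, (∀ a, 1 ≤ w a) → (∀ a, ∃ n c, DiCycle tl hd n c ∧ ∃ i, c i = a) →
      (∀ e f, ¬ Reach lf rt e r → ¬ Reach lf rt r e → ¬ Reach lf rt f r → ¬ Reach lf rt r f →
        Odd (len lf rt w e) → Odd (len lf rt w f) → Reach lf rt e f ∨ Reach lf rt f e) →
      Packs tl hd w (g / 2)) ∧
    Packs tl hd w (g / 2 - ({f | Odd (len lf rt w f)}.ncard / 2 - b) / 2) ∧
    (∀ r x : F, (∀ a, 1 ≤ w a) → ((∀ f, Reach lf rt x f ∨ Reach lf rt r f) ∨
      (∀ f, Reach lf rt f x ∨ Reach lf rt f r)) → Packs tl hd w (g / 2)) ∧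
    ((∀ a, w a = 1) → ∀ (r : F) (S : Finset V) (k : ℕ) (col : V → Fin k), 0 < k →
      (∀ a, tl a ∉ S → hd a ∉ S → ¬ Reach lf rt r (lf a) → ¬ Reach lf rt (rt a) r →
        ¬ Reach lf rt (rt a) (lf a) → col (tl a) ≠ col (hd a)) →
      Packs tl hd w ((g - S.card + (k - 1)) / k)) ∧
    (∀ (B : Type) [Fintype B] (σ : Equiv.Perm (B × Bool)), PlaneMap σ →
      Dual (fun a => cyc σ (a, true)) (fun a => cyc σ (a, false))
        (fun a => cyc (σ * opp) (a, true)) (fun a => cyc (σ * opp) (a, false))) := by
  obtain ⟨h1, h2, h3, h4⟩ := H43.OF.main tl hd lf rt hdual w g b hg hb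
  refine ⟨?_, ?_, h3, h4, ?_, ?_⟩
  · intro r hr
    apply h1 r
    have : {f | H43.OF.Wild lf rt r f ∧ Odd (H43.OF.len lf rt w f)} =
        {f | ¬ Reach lf rt f r ∧ ¬ Reach lf rt r f ∧ Odd (len lf rt w f)} := by
      ext f
      exact and_assoc
    rw [this]
    exact hr
  · intro r hw hall hc
    exact h2 r hw hall (fun e f he hf oe of => hc e f he.1 he.2 hf.1 hf.2 oe of)
  · intro hw r S k col hk hcol
    have hw' : w = fun _ => 1 := funext hw
    subst hw'
    exact H9.CH.fas_of_chrom tl hd lf rt hdual g (fun n c hc => by simpa using hg n c hc) r S k hk col hcol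
  · intro B _ σ hσ
    exact H37.OS.dualPair_of_map σ hσ

end Pool.Agent.Results.MP_9f68ee_co.HalfGirth
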