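import Pool.Agent.H29.W3.Fin

set_option autoImplicit false

namespace Pool.Agent.Results.MP_9f68ee_co.PlanarThreeTrees

open Finset Pool.Agent.H29.W3

/-- Let `D` be a finite digraph (vertices `V`, arcs `A`, tails `tl`, heads `hd`; loops and
parallel arcs allowed) whose underlying simple graph is isomorphic to a subgraph of a planar 3-tree
`G` (via the injection `φ`), with arc weights `l`, such that every directed cycle has weight at
least `k`. Then there are `k` sets of arcs, each meeting every directed cycle, such that every arc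
`a` is in at most `l a` of them. -/
theorem result (V A W : Type) [Fintype V] [Fintype A] [DecidableEq A] [Fintype W]
    (tl hd : A → V) (G : SimpleGraph W) (hG : IsPlanarThreeTree G)
    (φ : V → W) (hφ : Function.Injective φ)
    (hA : ∀ a, tl a ≠ hd a → G.Adj (φ (tl a)) (φ (hd a)))
    (l : A → ℕ) (k : ℕ)
    (hk : ∀ (n : ℕ) (c : Fin (n + 1) → A), (∀ i, hd (c i) = tl (c (i + 1))) →
      Function.Injective (fun i => tl (c i)) → k ≤ ∑ i, l (c i)) :
    ∃ T : Fin k → Finset A, (∀ a, (univ.filter (fun i => a ∈ T i)).card ≤ l a) ∧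
      ∀ i, ∀ (n : ℕ) (c : Fin (n + 1) → A), (∀ j, hd (c j) = tl (c (j + 1))) →
        Function.Injective (fun j => tl (c j)) → ∃ j, c j ∈ T i := by
  obtain ⟨T, h1, h2⟩ := final W A (fun a => φ (tl a)) (fun a => φ (hd a)) G hG
    (fun a ha => hA a (fun h => ha (congrArg φ h))) l k
    (fun n c hc hi => hk n c (fun i => hφ (hc i)) (fun i j hij => hi (congrArg φ hij)))
  exact ⟨T, h1, fun i n c hc hi => h2 i n c (fun j => congrArg φ (hc j))
    (fun a b hab => hi (hφ hab))⟩

end Pool.Agent.Results.MP_9f68ee_co.PlanarThreeTrees
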